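import Mathlib

set_option autoImplicit false

namespace Pool.Agent.Results.MP_4595ea_al.NotTwoSided

/-- coordinates in the basis 1, x, y, u, v, w, t, tx, ty, tu, tv, tw; here t is central with
square zero, xy = xu = ux = yv = vy = w, and all other products of x, y, u, v, w vanish -/
def R : Type := Fin 12 → ℚ

instance : AddCommGroup R := inferInstanceAs (AddCommGroup (Fin 12 → ℚ))
instance : Module ℚ R := inferInstanceAs (Module ℚ (Fin 12 → ℚ))
instance : Module.Finite ℚ R := inferInstanceAs (Module.Finite ℚ (Fin 12 → ℚ))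

def mul (p q : Fin 12 → ℚ) : Fin 12 → ℚ :=
  ![p 0 * q 0,
    p 0 * q 1 + p 1 * q 0,
    p 0 * q 2 + p 2 * q 0,
    p 0 * q 3 + p 3 * q 0,
    p 0 * q 4 + p 4 * q 0,
    p 0 * q 5 + p 1 * q 2 + p 1 * q 3 + p 2 * q 4 + p 3 * q 1 + p 4 * q 2 + p 5 * q 0,
    p 0 * q 6 + p 6 * q 0,
    p 0 * q 7 + p 6 * q 1 + p 1 * q 6 + p 7 * q 0,
    p 0 * q 8 + p 6 * q 2 + p 2 * q 6 + p 8 * q 0,
    p 0 * q 9 + p 6 * q 3 + p 3 * q 6 + p 9 * q 0,
    p 0 * q 10 + p 6 * q 4 + p 4 * q 6 + p 10 * q 0,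
    p 0 * q 11 + p 6 * q 5 + p 1 * q 8 + p 7 * q 2 + p 1 * q 9 + p 7 * q 3 + p 2 * q 10 + p 8 * q 4 + p 3 * q 7 + p 9 * q 1 + p 4 * q 8 + p 10 * q 2 + p 5 * q 6 + p 11 * q 0]

def bs (k : Fin 12) : R := fun i => if i = k then 1 else 0

instance : Ring R where
  mul := mul
  one := bs 0
  mul_assoc p q r := by
    change mul (mul p q) r = mul p (mul q r)
    funext i; fin_cases i <;> simp [mul] <;> ring
  one_mul p := by
    change mul (bs 0) p = p
    funext i; fin_cases i <;> simp [mul, bs]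
  mul_one p := by
    change mul p (bs 0) = p
    funext i; fin_cases i <;> simp [mul, bs]
  zero_mul p := by
    change mul (0 : Fin 12 → ℚ) p = (0 : Fin 12 → ℚ)
    funext i; fin_cases i <;> simp [mul]
  mul_zero p := by
    change mul p (0 : Fin 12 → ℚ) = (0 : Fin 12 → ℚ)
    funext i; fin_cases i <;> simp [mul]
  left_distrib p q r := by
    change mul p (fun i => q i + r i) = fun i => mul p q i + mul p r i
    funext i; fin_cases i <;> simp [mul] <;> ring
  right_distrib p q r := by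
    change mul (fun i => p i + q i) r = fun i => mul p r i + mul q r i
    funext i; fin_cases i <;> simp [mul] <;> ring

lemma mul_def (p q : R) : p * q = mul p q := rfl

instance : Algebra ℚ R := Algebra.ofModule
  (fun c p q => by
    change mul (fun i => c * p i) q = fun i => c * mul p q i
    funext i; fin_cases i <;> simp [mul] <;> ring)
  (fun c p q => by
    change mul p (fun i => c * q i) = fun i => c * mul p q i
    funext i; fin_cases i <;> simp [mul] <;> ring)

lemma cen (c : R) (h1 : c 1 = 0) (h2 : c 2 = 0) (h7 : c 7 = 0) (h8 : c 8 = 0) :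
    c ∈ Subring.center R := by
  rw [Subring.mem_center_iff]
  intro g
  change mul g c = mul c g
  funext i; fin_cases i <;> simp [mul, h1, h2, h7, h8] <;> ring

lemma bs_ne (k : Fin 12) : bs k ≠ 0 := fun h => by
  have e : bs k k = (0 : ℚ) := congrFun h k
  simp [bs] at e

/-- an element is central or has a central multiple equal to the socle element `tw` -/
lemma soc (a : R) :
    (∃ c ∈ Subring.center R, a * c = bs 11) ∨ a ∈ Subring.center R := by
  have key : ∀ (i k : Fin 12), a i ≠ 0 → bs k 1 = 0 → bs k 2 = 0 → bs k 7 = 0 → bs k 8 = 0 →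
      a * bs k = a i • bs 11 → ∃ c ∈ Subring.center R, a * c = bs 11 := by
    intro i k hi h1 h2 h7 h8 h
    refine ⟨(a i)⁻¹ • bs k, cen _ ?_ ?_ ?_ ?_, ?_⟩
    · change _ * bs k 1 = 0; rw [h1, mul_zero]
    · change _ * bs k 2 = 0; rw [h2, mul_zero]
    · change _ * bs k 7 = 0; rw [h7, mul_zero]
    · change _ * bs k 8 = 0; rw [h8, mul_zero]
    · rw [mul_smul_comm, h, smul_smul, inv_mul_cancel₀ hi, one_smul]
  by_cases h0 : a 0 = 0
  swap
  · refine Or.inl (key 0 11 h0 rfl rfl rfl rfl ?_)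
    change mul a (bs 11) = fun i => a 0 * bs 11 i
    funext i; fin_cases i <;> simp [mul, bs]
  by_cases h1 : a 1 = 0
  swap
  · refine Or.inl (key 1 9 h1 rfl rfl rfl rfl ?_)
    change mul a (bs 9) = fun i => a 1 * bs 11 i
    funext i; fin_cases i <;> simp [mul, bs, h0]
  by_cases h2 : a 2 = 0
  swap
  · refine Or.inl (key 2 10 h2 rfl rfl rfl rfl ?_)
    change mul a (bs 10) = fun i => a 2 * bs 11 i
    funext i; fin_cases i <;> simp [mul, bs, h0]
  by_cases h6 : a 6 = 0
  swap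
  · refine Or.inl (key 6 5 h6 rfl rfl rfl rfl ?_)
    change mul a (bs 5) = fun i => a 6 * bs 11 i
    funext i; fin_cases i <;> simp [mul, bs, h0]
  by_cases h7 : a 7 = 0
  swap
  · refine Or.inl (key 7 3 h7 rfl rfl rfl rfl ?_)
    change mul a (bs 3) = fun i => a 7 * bs 11 i
    funext i; fin_cases i <;> simp [mul, bs, h0, h1, h6]
  by_cases h8 : a 8 = 0
  swap
  · refine Or.inl (key 8 4 h8 rfl rfl rfl rfl ?_)
    change mul a (bs 4) = fun i => a 8 * bs 11 i
    funext i; fin_cases i <;> simp [mul, bs, h0, h2, h6]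
  exact Or.inr (cen a h1 h2 h7 h8)

lemma soc2 (a : R) (ha : a ≠ 0) : ∃ c, a * c = bs 11 := by
  have key : ∀ (i k : Fin 12), a i ≠ 0 → a * bs k = a i • bs 11 → ∃ c, a * c = bs 11 := by
    intro i k hi h
    exact ⟨(a i)⁻¹ • bs k, by rw [mul_smul_comm, h, smul_smul, inv_mul_cancel₀ hi, one_smul]⟩
  by_cases h0 : a 0 = 0
  swap
  · refine key 0 11 h0 ?_
    change mul a (bs 11) = fun i => a 0 * bs 11 i
    funext i; fin_cases i <;> simp [mul, bs]
  by_cases h1 : a 1 = 0
  swap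
  · refine key 1 9 h1 ?_
    change mul a (bs 9) = fun i => a 1 * bs 11 i
    funext i; fin_cases i <;> simp [mul, bs, h0]
  by_cases h2 : a 2 = 0
  swap
  · refine key 2 10 h2 ?_
    change mul a (bs 10) = fun i => a 2 * bs 11 i
    funext i; fin_cases i <;> simp [mul, bs, h0]
  by_cases h3 : a 3 = 0
  swap
  · refine key 3 7 h3 ?_
    change mul a (bs 7) = fun i => a 3 * bs 11 i
    funext i; fin_cases i <;> simp [mul, bs, h0]
  by_cases h4 : a 4 = 0
  swap
  · refine key 4 8 h4 ?_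
    change mul a (bs 8) = fun i => a 4 * bs 11 i
    funext i; fin_cases i <;> simp [mul, bs, h0, h1]
  by_cases h6 : a 6 = 0
  swap
  · refine key 6 5 h6 ?_
    change mul a (bs 5) = fun i => a 6 * bs 11 i
    funext i; fin_cases i <;> simp [mul, bs, h0]
  by_cases h5 : a 5 = 0
  swap
  · refine key 5 6 h5 ?_
    change mul a (bs 6) = fun i => a 5 * bs 11 i
    funext i; fin_cases i <;> simp [mul, bs, h0, h1, h2, h3, h4]
  by_cases h7 : a 7 = 0
  swap
  · refine key 7 3 h7 ?_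
    change mul a (bs 3) = fun i => a 7 * bs 11 i
    funext i; fin_cases i <;> simp [mul, bs, h0, h1, h6]
  by_cases h8 : a 8 = 0
  swap
  · refine key 8 4 h8 ?_
    change mul a (bs 4) = fun i => a 8 * bs 11 i
    funext i; fin_cases i <;> simp [mul, bs, h0, h2, h6]
  by_cases h9 : a 9 = 0
  swap
  · refine key 9 1 h9 ?_
    change mul a (bs 1) = fun i => a 9 * bs 11 i
    funext i; fin_cases i <;> simp [mul, bs, h0, h3, h6]
  by_cases h10 : a 10 = 0
  swap
  · refine key 10 2 h10 ?_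
    change mul a (bs 2) = fun i => a 10 * bs 11 i
    funext i; fin_cases i <;> simp [mul, bs, h0, h1, h4, h6, h7]
  by_cases h11 : a 11 = 0
  swap
  · refine key 11 0 h11 ?_
    change mul a (bs 0) = fun i => a 11 * bs 11 i
    funext i; fin_cases i <;> simp [mul, bs, h0, h1, h2, h3, h4, h5, h6, h7, h8, h9, h10]
  exfalso
  apply ha
  funext i; fin_cases i <;> assumption

theorem result : ∃ (R : Type) (_ : Ring R) (_ : Algebra ℚ R), FiniteDimensional ℚ R ∧
    (∀ a : R, a ≠ 0 → ∃ x ∈ Subring.center R, ∃ y ∈ Subring.center R,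
      x ≠ 0 ∧ y ≠ 0 ∧ a * x = y) ∧
    ∃ I : Submodule Rᵐᵒᵖ R, (∀ J : Submodule Rᵐᵒᵖ R, J ≠ ⊥ → I ⊓ J ≠ ⊥) ∧
      ∃ r : R, ∃ a ∈ I, r * a ∉ I := by
  refine ⟨R, inferInstance, inferInstance, inferInstance, fun a ha => ?_,
    Submodule.span Rᵐᵒᵖ {bs 6 + bs 1}, fun J hJ => ?_, bs 2, bs 6 + bs 1,
    Submodule.mem_span_singleton_self _, fun h => ?_⟩
  · rcases soc a with ⟨c, hc, h⟩ | h
    · refine ⟨c, hc, bs 11, cen _ rfl rfl rfl rfl, ?_, bs_ne 11, h⟩
      rintro rfl
      exact bs_ne 11 (by rw [← h, mul_zero])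
    · exact ⟨1, one_mem _, a, h, bs_ne 0, ha, mul_one a⟩
  · obtain ⟨a, haJ, ha⟩ := (Submodule.ne_bot_iff J).mp hJ
    obtain ⟨c, hc⟩ := soc2 a ha
    refine (Submodule.ne_bot_iff _).mpr ⟨bs 11, ⟨?_, ?_⟩, bs_ne 11⟩
    · refine Submodule.mem_span_singleton.mpr ⟨MulOpposite.op (bs 5), ?_⟩
      change mul (fun i => bs 6 i + bs 1 i) (bs 5) = bs 11
      funext i; fin_cases i <;> simp [mul, bs]
    · rw [← hc]
      exact J.smul_mem (MulOpposite.op c) haJ
  · obtain ⟨c, hc⟩ := Submodule.mem_span_singleton.mp h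
    have h2 : mul (fun i => bs 6 i + bs 1 i) c.unop = mul (bs 2) (fun i => bs 6 i + bs 1 i) := hc
    have e5 := congrFun h2 5
    have e8 := congrFun h2 8
    have e9 := congrFun h2 9
    simp [mul, bs] at e5 e8 e9
    linarith

end Pool.Agent.Results.MP_4595ea_al.NotTwoSided
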